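import Pool.Agent.N718.GU.GP2
import Pool.Agent.N718.GV.GP

set_option autoImplicit false

/-!
The main estimate.
-/

namespace Pool.Agent.N718.GV

open Finset Pool.Agent.N718.GU

/-- the average over the points, all parameters given -/
lemma avg (hI : P_INTERP) (hV : P_VQ) (hFa : P_FAREY) {F : ℤ → ℂ} (hF : ∀ n, ‖F n‖ ≤ 1)
    {D m B d x X h M Y L Q R : ℕ} (H : Fin (d + 1) → ℕ) (hh : ∀ i, h ≤ H i) (hm : m ≤ d) (hx : 1 ≤ x)
    (hXd : X = (D + 1) * (B + 1) * x) (hXH : X ≤ h) (hhM : h ≤ M) (ρ : (Fin D → ℤ) → ℤ)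
    (hM : ∀ v ∈ cube D x, (|ρ v| : ℤ) + sz H X ≤ M) (hL : 1 ≤ L)
    (hY : Y * (L * (1 + X) ^ m) ≤ h) (hQ : Q = (2 * X) ^ m) (hYQ : Q ^ 2 ≤ Y) {η : ℝ} (hη : 0 < η) (hη1 : η ≤ 1)
    (hYη : 64 / η ^ 2 ≤ Y) {δ : ℝ} (hδ : 0 < δ) {C : ℝ} (hC0 : 0 < C)
    (hls : ∀ z : ℤ, ∑ r ∈ Icc 1 Q, ∑ a ∈ red r, ‖S F Y z ((a : ℝ) / r)‖ ^ 2 ≤ C * ((Y : ℝ) + (Q : ℝ) ^ 2) * Y)
    {ε' ε₁ ε₂ : ℝ} (hε' : 0 ≤ ε') (_hε₁ : 0 ≤ ε₁) (hε₂ : 0 ≤ ε₂) (hU : ∀ α : ℝ, ∑ z ∈ Icc (-(2 * M : ℤ)) (2 * M), ‖S F Y z α‖ ≤ ε' * Y * M)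
    (p₀ : Fin (D + 1) → ℤ) (p : Fin m → Fin (D + 1) → ℤ)
    (hp₀ : ∀ i, |p₀ i| ≤ B) (hp : ∀ j i, |p j i| ≤ B)
    (hsm₀ : (((cube D x).filter (fun v => |(aff p₀ v : ℝ)| ≤ δ * x)).card : ℝ) ≤ ε₁ * (2 * (x : ℝ) + 1) ^ D)
    (hsm : ∀ j, (((cube D x).filter (fun v => aff (p₀ - p j) v = 0)).card : ℝ) ≤ ε₁ * (2 * (x : ℝ) + 1) ^ D)
    (hdiv : ∀ r, R < r → (((cube D x).filter (fun v => ∏ j, aff (p₀ - p j) v ≠ 0 ∧ (r : ℤ) ∣ ∏ j, aff (p₀ - p j) v)).card : ℝ) ≤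
      ε₂ * (2 * (x : ℝ) + 1) ^ D)
    (G : (Fin D → ℤ) → Fin m → ℤ → ℂ) (hG : ∀ v j n, ‖G v j n‖ ≤ 1) :
    ∑ v ∈ cube D x, ‖∑ c ∈ bx H, F (ρ v + ev c (aff p₀ v)) * ∏ j, G v j (ev c (aff (p j) v))‖ ≤
      ((m + 1) * ε₁ * (bx H).card + (d + 1) / L * (bx H).card +
      (d + 1) * 2 ^ d * (bx H).card / (∑ i, (H i * (δ * x) ^ (i : ℕ))) * (2 * η * (2 * M + 1) + 8 / (η * (Y : ℝ) ^ 2) *
        (R * (R * (ε' * (Y : ℝ) ^ 2 * M)) + ε₂ * (10 * C * M * (Y : ℝ) ^ 2)))) * (2 * (x : ℝ) + 1) ^ D := by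
  classical
  have hX1 : 1 ≤ X := by
    rw [hXd]
    exact Nat.one_le_iff_ne_zero.mpr (by positivity)
  have hxr : (0:ℝ) < x := by exact_mod_cast (show 0 < x by omega)
  obtain ⟨N, hN⟩ : ∃ N, N = (2 * (x : ℝ) + 1) ^ D := ⟨_, rfl⟩
  have hN0 : 0 ≤ N := by rw [hN]; positivity
  have hcN : ((cube D x).card : ℝ) = N := by rw [GP_cube_card, hN]
  rw [← hN] at hsm₀ hsm hdiv ⊢
  obtain ⟨q, hq⟩ : ∃ q : (Fin D → ℤ) → ℕ, ∀ v, q v = (∏ j, (aff p₀ v - aff (p j) v)).natAbs := ⟨_, fun _ => rfl⟩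
  have hq' : ∀ v, q v = (∏ j, aff (p₀ - p j) v).natAbs := by
    intro v
    rw [hq]
    congr 1
    exact prod_congr rfl fun j _ => (GP_aff_sub _ _ _).symm
  obtain ⟨K, hK⟩ : ∃ K : ℝ, K = (d + 1) * 2 ^ d * (bx H).card / (∑ i, (H i * (δ * x) ^ (i : ℕ))) := ⟨_, rfl⟩
  have hK0 : 0 ≤ K := by rw [hK]; positivity
  obtain ⟨bc, hbc⟩ : ∃ bc : ℝ, bc = (bx H).card := ⟨_, rfl⟩
  have hbc0 : 0 ≤ bc := by rw [hbc]; positivity
  rw [← hK, ← hbc]
  obtain ⟨f, hf⟩ : ∃ f : (Fin D → ℤ) → ℝ, ∀ v, f v = ‖∑ c ∈ bx H, F (ρ v + ev c (aff p₀ v)) * ∏ j, G v j (ev c (aff (p j) v))‖ :=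
    ⟨_, fun _ => rfl⟩
  have hf0 : ∀ v, 0 ≤ f v := fun v => by rw [hf]; exact norm_nonneg _
  -- trivial bound
  have htriv : ∀ v, f v ≤ bc := by
    intro v
    rw [hf]
    refine (norm_sum_le _ _).trans ?_
    calc _ ≤ ∑ _c ∈ bx H, (1:ℝ) := by
          refine sum_le_sum fun c _ => ?_
          rw [norm_mul]
          refine mul_le_one₀ (hF _) (norm_nonneg _) ?_
          rw [norm_prod]
          exact prod_le_one (fun _ _ => norm_nonneg _) (fun j _ => hG v j _)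
      _ = bc := by rw [sum_const, nsmul_eq_mul, mul_one, hbc]
  -- good and bad points
  obtain ⟨good, hgood⟩ : ∃ good, good = (cube D x).filter (fun v => δ * x < |(aff p₀ v : ℝ)| ∧ q v ≠ 0) := ⟨_, rfl⟩
  obtain ⟨bad, hbad⟩ : ∃ bad, bad = (cube D x).filter (fun v => ¬ (δ * x < |(aff p₀ v : ℝ)| ∧ q v ≠ 0)) := ⟨_, rfl⟩
  have hbadc : (bad.card : ℝ) ≤ (m + 1) * ε₁ * N := by
    have h1 : bad ⊆ (cube D x).filter (fun v => |(aff p₀ v : ℝ)| ≤ δ * x) ∪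
        (univ : Finset (Fin m)).biUnion (fun j => (cube D x).filter (fun v => aff (p₀ - p j) v = 0)) := by
      intro v hv
      rw [hbad, mem_filter] at hv
      rw [mem_union, mem_filter]
      by_cases h : |(aff p₀ v : ℝ)| ≤ δ * x
      · exact Or.inl ⟨hv.1, h⟩
      · right
        rw [mem_biUnion]
        have h2 : q v = 0 := by
          by_contra h3
          exact hv.2 ⟨not_le.mp h, h3⟩
        rw [hq', Int.natAbs_eq_zero, prod_eq_zero_iff] at h2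
        obtain ⟨j, hj, hj2⟩ := h2
        exact ⟨j, hj, by rw [mem_filter]; exact ⟨hv.1, hj2⟩⟩
    calc (bad.card : ℝ) ≤ (((cube D x).filter (fun v => |(aff p₀ v : ℝ)| ≤ δ * x) ∪
        (univ : Finset (Fin m)).biUnion (fun j => (cube D x).filter (fun v => aff (p₀ - p j) v = 0))).card : ℝ) := by
          exact_mod_cast card_le_card h1
      _ ≤ (((cube D x).filter (fun v => |(aff p₀ v : ℝ)| ≤ δ * x)).card : ℝ) +
          ∑ j : Fin m, (((cube D x).filter (fun v => aff (p₀ - p j) v = 0)).card : ℝ) := by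
          have h2 := card_union_le ((cube D x).filter (fun v => |(aff p₀ v : ℝ)| ≤ δ * x))
            ((univ : Finset (Fin m)).biUnion (fun j => (cube D x).filter (fun v => aff (p₀ - p j) v = 0)))
          have h3 := card_biUnion_le (s := (univ : Finset (Fin m))) (t := fun j => (cube D x).filter (fun v => aff (p₀ - p j) v = 0))
          have h4 := h2.trans (Nat.add_le_add_left h3 _)
          exact_mod_cast h4
      _ ≤ ε₁ * N + ∑ _j : Fin m, ε₁ * N := add_le_add hsm₀ (sum_le_sum fun j _ => hsm j)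
      _ = _ := by
          rw [sum_const, card_univ, Fintype.card_fin, nsmul_eq_mul]
          ring
  have hsplit : ∑ v ∈ cube D x, f v = ∑ v ∈ good, f v + ∑ v ∈ bad, f v := by
    rw [hgood, hbad, sum_filter_add_sum_filter_not]
  have hbads : ∑ v ∈ bad, f v ≤ (m + 1) * ε₁ * bc * N := by
    calc ∑ v ∈ bad, f v ≤ ∑ _v ∈ bad, bc := sum_le_sum fun v _ => htriv v
      _ = bad.card * bc := by rw [sum_const, nsmul_eq_mul]
      _ ≤ ((m + 1) * ε₁ * N) * bc := mul_le_mul_of_nonneg_right hbadc hbc0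
      _ = _ := by ring
  -- good points
  have hpt : ∀ v ∈ good, f v ≤ (d + 1) / L * bc + K * (2 * η * (2 * M + 1) + 8 / (η * (Y : ℝ) ^ 2) *
      ∑ r ∈ (q v).divisors, GT F Y M r) := by
    intro v hv
    rw [hgood, mem_filter] at hv
    rw [hf, hbc, hK]
    exact point hI hV hFa hF H hh hm hX1 hXH hhM hL hY (by
        rw [mul_comm 2 m, pow_mul, ← hQ]
        exact hYQ) hη hη1 hYη (hM v hv.1) (fun j => aff (p j) v) (by positivity)
      hv.2.1.le (by rw [hXd]; exact GP_aff_abs hp₀ hx hv.1) (fun j => by rw [hXd]; exact GP_aff_abs (hp j) hx hv.1)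
      (hG v) (hq v) hv.2.2
  have hqQ : ∀ v ∈ good, q v ≤ Q := by
    intro v hv
    rw [hgood, mem_filter] at hv
    have h1 : |∏ j, (aff p₀ v - aff (p j) v)| ≤ (2 * (X : ℤ)) ^ m := by
      rw [abs_prod]
      calc ∏ j : Fin m, |aff p₀ v - aff (p j) v| ≤ ∏ _j : Fin m, (2 * (X : ℤ)) := by
            refine prod_le_prod (fun _ _ => abs_nonneg _) fun j _ => ?_
            have h3 := abs_sub (aff p₀ v) (aff (p j) v)
            have h4 : |aff p₀ v| ≤ X := by rw [hXd]; exact GP_aff_abs hp₀ hx hv.1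
            have h5 : |aff (p j) v| ≤ X := by rw [hXd]; exact GP_aff_abs (hp j) hx hv.1
            linarith
        _ = _ := by rw [prod_const, card_univ, Fintype.card_fin]
    have h2 : (q v : ℤ) ≤ ((2 * X) ^ m : ℕ) := by
      rw [hq]
      push_cast
      exact h1
    rw [hQ]
    exact_mod_cast h2
  have hM1 : 1 ≤ M := by omega
  have hR : ∑ r ∈ Icc 1 R, GT F Y M r ≤ R * (R * (ε' * (Y : ℝ) ^ 2 * M)) := by
    calc ∑ r ∈ Icc 1 R, GT F Y M r ≤ ∑ _r ∈ Icc 1 R, ((R : ℝ) * (ε' * (Y : ℝ) ^ 2 * M)) := by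
          refine sum_le_sum fun r hr => (GT_small hF hU r).trans ?_
          rw [mem_Icc] at hr
          apply mul_le_mul_of_nonneg_right
          · exact_mod_cast hr.2
          · positivity
      _ = _ := by rw [sum_const, Nat.card_Icc, Nat.add_sub_cancel, nsmul_eq_mul]
  have hmean := GP_mean good q (fun r => GT F Y M r) (fun r => GT_nonneg F Y M r) (Q := Q) (R := R)
    (fun v hv => by rw [hgood, mem_filter] at hv; exact hv.2.2) hqQ (N := N) (ε₂ := ε₂)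
    (t₁ := R * (R * (ε' * (Y : ℝ) ^ 2 * M))) (t₂ := 10 * C * M * (Y : ℝ) ^ 2) (by
      rw [← hcN, hgood]
      exact_mod_cast card_filter_le _ _) hN0 (by
      intro r hr
      refine le_trans ?_ (hdiv r hr)
      have : good.filter (fun v => r ∣ q v) ⊆ (cube D x).filter (fun v => ∏ j, aff (p₀ - p j) v ≠ 0 ∧ (r : ℤ) ∣ ∏ j, aff (p₀ - p j) v) := by
        intro v hv
        rw [mem_filter, hgood, mem_filter] at hv
        rw [mem_filter]
        refine ⟨hv.1.1, ?_, ?_⟩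
        · have h1 := hv.1.2.2
          rw [hq'] at h1
          exact Int.natAbs_ne_zero.mp h1
        · have h1 := hv.2
          rw [hq'] at h1
          exact Int.natCast_dvd.mpr h1
      exact_mod_cast card_le_card this) hε₂ hR (GT_sum hC0 hM1 hYQ hls)
  obtain ⟨TT, hTT⟩ : ∃ TT, TT = R * (R * (ε' * (Y : ℝ) ^ 2 * M)) + ε₂ * (10 * C * M * (Y : ℝ) ^ 2) := ⟨_, rfl⟩
  rw [← hTT] at hmean ⊢
  have hg : ∑ v ∈ good, f v ≤ ((d + 1) / L * bc + K * (2 * η * (2 * M + 1) + 8 / (η * (Y : ℝ) ^ 2) * TT)) * N := by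
    have hgc : (good.card : ℝ) ≤ N := by
      rw [← hcN, hgood]
      exact_mod_cast card_filter_le _ _
    have h1 : 0 ≤ (d + 1) / L * bc + K * (2 * η * (2 * M + 1)) := by positivity
    have h2 : 0 ≤ K * (8 / (η * (Y : ℝ) ^ 2)) := by positivity
    calc ∑ v ∈ good, f v ≤ ∑ v ∈ good, (((d + 1) / L * bc + K * (2 * η * (2 * M + 1))) + K * (8 / (η * (Y : ℝ) ^ 2)) *
          ∑ r ∈ (q v).divisors, GT F Y M r) := by
          refine sum_le_sum fun v hv => (hpt v hv).trans (le_of_eq (by ring))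
      _ = good.card * ((d + 1) / L * bc + K * (2 * η * (2 * M + 1))) + K * (8 / (η * (Y : ℝ) ^ 2)) *
          ∑ v ∈ good, ∑ r ∈ (q v).divisors, GT F Y M r := by
          rw [sum_add_distrib, sum_const, nsmul_eq_mul, ← mul_sum]
      _ ≤ N * ((d + 1) / L * bc + K * (2 * η * (2 * M + 1))) + K * (8 / (η * (Y : ℝ) ^ 2)) * (TT * N) :=
          add_le_add (mul_le_mul_of_nonneg_right hgc h1) (mul_le_mul_of_nonneg_left hmean h2)
      _ = _ := by ring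
  have hfs : ∑ v ∈ cube D x, ‖∑ c ∈ bx H, F (ρ v + ev c (aff p₀ v)) * ∏ j, G v j (ev c (aff (p j) v))‖ = ∑ v ∈ cube D x, f v :=
    sum_congr rfl fun v _ => (hf v).symm
  rw [hfs, hsplit]
  linarith

end Pool.Agent.N718.GV
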