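import Pool.Agent.N718.GU.Count
import Pool.Agent.N718.GU.Shift

set_option autoImplicit false

/-!
Arbitrary boxes of polynomials: the number of polynomials with a given value, and translations of the box.
-/

namespace Pool.Agent.N718.GV

open Finset Pool.Agent.N718.GU

/-- the polynomials `c_0 + ... + c_d X^d` with `|c_i| ≤ H_i` -/
noncomputable def bx {d : ℕ} (H : Fin (d + 1) → ℕ) : Finset (Fin (d + 1) → ℤ) :=
  Fintype.piFinset (fun i => Icc (-(H i : ℤ)) (H i))

lemma bx_card {d : ℕ} (H : Fin (d + 1) → ℕ) : ((bx H).card : ℝ) = ∏ i, (2 * (H i : ℝ) + 1) := by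
  unfold bx
  rw [Fintype.card_piFinset]
  push_cast
  refine prod_congr rfl fun i _ => ?_
  rw [Int.card_Icc]
  have : ((H i : ℤ) + 1 - -(H i : ℤ)).toNat = 2 * H i + 1 := by omega
  rw [this]
  push_cast
  ring

lemma bx_card_nat {d : ℕ} (H : Fin (d + 1) → ℕ) : (bx H).card = ∏ i, (2 * H i + 1) := by
  unfold bx
  rw [Fintype.card_piFinset]
  refine prod_congr rfl fun i _ => ?_
  rw [Int.card_Icc]
  omega

lemma bx_step {d : ℕ} (H : Fin (d + 2) → ℕ) (P m : ℤ) :
    ((bx H).filter (fun c => ev c P = m)).card ≤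
      ∑ t ∈ (Icc (-(H 0 : ℤ)) (H 0)).filter (fun t => P ∣ m - t),
        ((bx (fun i : Fin (d + 1) => H i.succ)).filter (fun c => P * ev c P = m - t)).card := by
  classical
  have hmaps : ∀ c ∈ (bx H).filter (fun c => ev c P = m),
      c 0 ∈ (Icc (-(H 0 : ℤ)) (H 0)).filter (fun t => P ∣ m - t) := by
    intro c hc
    rw [mem_filter, bx, Fintype.mem_piFinset] at hc
    rw [mem_filter]
    refine ⟨hc.1 0, ?_⟩
    rw [← hc.2, COUNT_ev]
    exact ⟨ev (fun i : Fin (d + 1) => c i.succ) P, by ring⟩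
  rw [card_eq_sum_card_fiberwise hmaps]
  refine sum_le_sum (fun t _ => ?_)
  refine card_le_card_of_injOn (fun c => (fun i : Fin (d + 1) => c i.succ)) ?_ ?_
  · intro c hc
    simp only [coe_filter, mem_filter, bx, Fintype.mem_piFinset, Set.mem_ofPred_eq] at hc ⊢
    obtain ⟨⟨h1, h2⟩, h3⟩ := hc
    refine ⟨fun i => h1 i.succ, ?_⟩
    rw [← h2, ← h3, COUNT_ev]
    ring
  · intro c hc c' hc' hcc
    simp only [coe_filter, mem_filter, Set.mem_ofPred_eq] at hc hc'
    funext i
    refine Fin.cases ?_ (fun j => ?_) i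
    · rw [hc.2, hc'.2]
    · exact congrFun hcc j

/-- the first coefficient is determined by the others -/
lemma bx_first {d : ℕ} (H : Fin (d + 1) → ℕ) (P m : ℤ) :
    ((bx H).filter (fun c => ev c P = m)).card * H 0 ≤ (bx H).card := by
  classical
  have h1 : ((bx H).filter (fun c => ev c P = m)).card ≤ ∏ i : Fin d, (2 * H i.succ + 1) := by
    have h2 : ((bx H).filter (fun c => ev c P = m)).card ≤
        (Fintype.piFinset (fun i : Fin d => Icc (-(H i.succ : ℤ)) (H i.succ))).card := by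
      refine card_le_card_of_injOn (fun c => (fun i : Fin d => c i.succ)) ?_ ?_
      · intro c hc
        simp only [coe_filter, bx, Fintype.mem_piFinset, Set.mem_ofPred_eq, mem_coe] at hc ⊢
        exact fun i => hc.1 i.succ
      · intro c hc c' hc' hcc
        simp only [coe_filter, Set.mem_ofPred_eq] at hc hc'
        have h3 : ∀ i : Fin d, c i.succ = c' i.succ := fun i => congrFun hcc i
        funext i
        refine Fin.cases ?_ (fun j => h3 j) i
        have h4 := hc.2.trans hc'.2.symm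
        unfold ev at h4
        rw [Fin.sum_univ_succ, Fin.sum_univ_succ] at h4
        simp only [Fin.val_zero, pow_zero, mul_one] at h4
        rw [sum_congr rfl (fun i _ => by rw [h3 i])] at h4
        exact add_right_cancel h4
    refine h2.trans (le_of_eq ?_)
    rw [Fintype.card_piFinset]
    refine prod_congr rfl fun i _ => ?_
    rw [Int.card_Icc]
    omega
  rw [bx_card_nat, Fin.prod_univ_succ]
  calc ((bx H).filter (fun c => ev c P = m)).card * H 0 ≤ (∏ i : Fin d, (2 * H i.succ + 1)) * (2 * H 0 + 1) := by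
        apply Nat.mul_le_mul h1
        omega
    _ = _ := by ring

theorem bx_count {d : ℕ} (H : Fin (d + 1) → ℕ) (P : ℤ) (h1 : 1 ≤ |P|) (h2 : ∀ i, |P| ≤ H i) (m : ℤ) (i : Fin (d + 1)) :
    (((bx H).filter (fun c => ev c P = m)).card : ℝ) * (H i * |(P : ℝ)| ^ (i : ℕ)) ≤ 2 ^ d * (bx H).card := by
  classical
  induction d generalizing m with
  | zero =>
    have hi : i = 0 := Fin.ext (by have := i.isLt; simp at this ⊢)
    rw [hi]
    simp only [Fin.val_zero, pow_zero, mul_one, one_mul]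
    exact_mod_cast bx_first H P m
  | succ d ih =>
    refine Fin.cases ?_ (fun j => ?_) i
    · simp only [Fin.val_zero, pow_zero, mul_one]
      have h3 : (((bx H).filter (fun c => ev c P = m)).card : ℝ) * H 0 ≤ (bx H).card := by exact_mod_cast bx_first H P m
      refine h3.trans ?_
      apply le_mul_of_one_le_left (Nat.cast_nonneg _)
      exact one_le_pow₀ (by norm_num)
    · have hP : P ≠ 0 := by
        rintro rfl
        simp at h1
      obtain ⟨H', hH'⟩ : ∃ H' : Fin (d + 1) → ℕ, H' = fun i => H i.succ := ⟨_, rfl⟩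
      have hstep := bx_step H P m
      rw [← hH'] at hstep
      have hterm : ∀ t ∈ (Icc (-(H 0 : ℤ)) (H 0)).filter (fun t => P ∣ m - t),
          (((bx H').filter (fun c => P * ev c P = m - t)).card : ℝ) * (H' j * |(P : ℝ)| ^ (j : ℕ)) ≤ 2 ^ d * (bx H').card := by
        intro t ht
        rw [mem_filter] at ht
        obtain ⟨u, hu⟩ := ht.2
        have h3 := ih H' (fun i => by rw [hH']; exact h2 i.succ) u j
        have h4 : (bx H').filter (fun c => P * ev c P = m - t) = (bx H').filter (fun c => ev c P = u) := by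
          apply filter_congr
          intro c _
          rw [hu]
          exact ⟨fun h => mul_left_cancel₀ hP h, fun h => by rw [h]⟩
        rw [h4]
        exact h3
      have hline := COUNT_line (H 0) P m h1 (h2 0)
      obtain ⟨Tn, hTn⟩ : ∃ Tn : Finset ℤ, Tn = (Icc (-(H 0 : ℤ)) (H 0)).filter (fun t => P ∣ m - t) := ⟨_, rfl⟩
      rw [← hTn] at hstep hterm hline
      have hcs : ((bx H).card : ℝ) = (2 * (H 0 : ℝ) + 1) * (bx H').card := by
        rw [bx_card, bx_card, Fin.prod_univ_succ, hH']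
      have hsum : (((bx H).filter (fun c => ev c P = m)).card : ℝ) * (H' j * |(P : ℝ)| ^ (j : ℕ)) ≤
          Tn.card * (2 ^ d * (bx H').card) := by
        have h5 : (((bx H).filter (fun c => ev c P = m)).card : ℝ) ≤
            ∑ t ∈ Tn, (((bx H').filter (fun c => P * ev c P = m - t)).card : ℝ) := by exact_mod_cast hstep
        calc _ ≤ (∑ t ∈ Tn, (((bx H').filter (fun c => P * ev c P = m - t)).card : ℝ)) * (H' j * |(P : ℝ)| ^ (j : ℕ)) := by
              gcongr
          _ = ∑ t ∈ Tn, (((bx H').filter (fun c => P * ev c P = m - t)).card : ℝ) * (H' j * |(P : ℝ)| ^ (j : ℕ)) := by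
              rw [sum_mul]
          _ ≤ ∑ _t ∈ Tn, (2 ^ d * ((bx H').card : ℝ)) := sum_le_sum hterm
          _ = _ := by rw [sum_const, nsmul_eq_mul]
      have h6 : (H j.succ : ℝ) = H' j := by rw [hH']
      have h7 : |(P : ℝ)| ^ ((j.succ : Fin (d + 2)) : ℕ) = |(P : ℝ)| ^ (j : ℕ) * |(P : ℝ)| := by
        rw [Fin.val_succ, pow_succ]
      rw [h6, h7, hcs]
      calc _ = ((((bx H).filter (fun c => ev c P = m)).card : ℝ) * (H' j * |(P : ℝ)| ^ (j : ℕ))) * |(P : ℝ)| := by ring
        _ ≤ (Tn.card * (2 ^ d * (bx H').card)) * |(P : ℝ)| := by gcongr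
        _ = (Tn.card * |(P : ℝ)|) * (2 ^ d * (bx H').card) := by ring
        _ ≤ (4 * H 0) * (2 ^ d * (bx H').card) := by gcongr
        _ ≤ (2 * (2 * (H 0 : ℝ) + 1)) * (2 ^ d * (bx H').card) := by
            apply mul_le_mul_of_nonneg_right _ (by positivity)
            linarith
        _ = _ := by rw [pow_succ]; ring

/-- the size of the values of the polynomials of the box at `X` -/
noncomputable def sz {d : ℕ} (H : Fin (d + 1) → ℕ) (X : ℕ) : ℕ := ∑ i, H i * X ^ (i : ℕ)

/-- the number of polynomials with a given value -/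
theorem bx_count_all {d : ℕ} (H : Fin (d + 1) → ℕ) (P : ℤ) (h1 : 1 ≤ |P|) (h2 : ∀ i, |P| ≤ H i) (m : ℤ) {t : ℝ} (ht : 0 ≤ t)
    (htP : t ≤ |(P : ℝ)|) :
    (((bx H).filter (fun c => ev c P = m)).card : ℝ) * ∑ i, (H i * t ^ (i : ℕ)) ≤ (d + 1) * 2 ^ d * (bx H).card := by
  rw [mul_sum]
  calc ∑ i, (((bx H).filter (fun c => ev c P = m)).card : ℝ) * (H i * t ^ (i : ℕ)) ≤
      ∑ _i : Fin (d + 1), (2 ^ d * ((bx H).card : ℝ)) := by
        refine sum_le_sum fun i _ => le_trans ?_ (bx_count H P h1 h2 m i)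
        gcongr
    _ = _ := by
        rw [sum_const, card_univ, Fintype.card_fin, nsmul_eq_mul]
        push_cast
        ring

theorem bx_shift_card {d : ℕ} (H : Fin (d + 1) → ℕ) (U h : ℕ) (hh : ∀ i, h ≤ H i) (w : Fin (d + 1) → ℤ) (hw : ∀ i, |w i| ≤ U) :
    ((bx H).filter (fun c => c - w ∉ bx H)).card * (2 * h + 1) ≤ (d + 1) * (U * (bx H).card) := by
  classical
  obtain ⟨A, hA⟩ : ∃ A : Fin (d + 1) → Finset (Fin (d + 1) → ℤ), ∀ i, A i = Fintype.piFinset (fun j =>
    if j = i then (Icc (-(H j : ℤ)) (H j)).filter (fun t => t - w i ∉ Icc (-(H i : ℤ)) (H i)) else Icc (-(H j : ℤ)) (H j)) :=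
    ⟨_, fun _ => rfl⟩
  have hsub : (bx H).filter (fun c => c - w ∉ bx H) ⊆ Finset.univ.biUnion A := by
    intro c hc
    rw [mem_filter] at hc
    obtain ⟨h1, h2⟩ := hc
    rw [bx, Fintype.mem_piFinset] at h1 h2
    push Not at h2
    obtain ⟨i, hi⟩ := h2
    rw [mem_biUnion]
    refine ⟨i, mem_univ _, ?_⟩
    rw [hA, Fintype.mem_piFinset]
    intro j
    by_cases hj : j = i
    · subst hj
      rw [if_pos rfl, mem_filter]
      exact ⟨h1 j, hi⟩
    · rw [if_neg hj]
      exact h1 j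
  have hcard : ∀ i, (A i).card * (2 * h + 1) ≤ U * (bx H).card := by
    intro i
    rw [hA, Fintype.card_piFinset, bx_card_nat, Fin.prod_univ_succAbove _ i, Fin.prod_univ_succAbove (fun j => 2 * H j + 1) i]
    have h1 : ∀ j : Fin d, (if i.succAbove j = i then (Icc (-(H (i.succAbove j) : ℤ)) (H (i.succAbove j))).filter
        (fun t => t - w i ∉ Icc (-(H i : ℤ)) (H i)) else Icc (-(H (i.succAbove j) : ℤ)) (H (i.succAbove j))).card =
        2 * H (i.succAbove j) + 1 := by
      intro j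
      rw [if_neg (Fin.succAbove_ne i j), Int.card_Icc]
      omega
    rw [Finset.prod_congr rfl (fun j _ => h1 j), if_pos rfl]
    have h3 := SHIFT_line (H i) U (w i) (hw i)
    have h4 := hh i
    calc ((Icc (-(H i : ℤ)) (H i)).filter (fun t => t - w i ∉ Icc (-(H i : ℤ)) (H i))).card *
        (∏ j : Fin d, (2 * H (i.succAbove j) + 1)) * (2 * h + 1) ≤ U * (∏ j : Fin d, (2 * H (i.succAbove j) + 1)) * (2 * H i + 1) := by
          gcongr
      _ = _ := by ring
  calc ((bx H).filter (fun c => c - w ∉ bx H)).card * (2 * h + 1) ≤ (Finset.univ.biUnion A).card * (2 * h + 1) :=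
        Nat.mul_le_mul_right _ (card_le_card hsub)
    _ ≤ (∑ i : Fin (d + 1), (A i).card) * (2 * h + 1) := Nat.mul_le_mul_right _ card_biUnion_le
    _ = ∑ i : Fin (d + 1), (A i).card * (2 * h + 1) := by rw [sum_mul]
    _ ≤ ∑ _i : Fin (d + 1), U * (bx H).card := sum_le_sum (fun i _ => hcard i)
    _ = (d + 1) * (U * (bx H).card) := by
        rw [sum_const, card_univ, Fintype.card_fin, smul_eq_mul]

theorem bx_shift {d : ℕ} (H : Fin (d + 1) → ℕ) (U h : ℕ) (hh : ∀ i, h ≤ H i) (w : Fin (d + 1) → ℤ) (hw : ∀ i, |w i| ≤ U)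
    (G : (Fin (d + 1) → ℤ) → ℂ) (hG : ∀ c, ‖G c‖ ≤ 1) :
    ‖∑ c ∈ bx H, G (c + w) - ∑ c ∈ bx H, G c‖ ≤ 2 * (d + 1) * (U / (2 * (h : ℝ) + 1)) * (bx H).card := by
  classical
  have h1 : ∑ c ∈ bx H, G (c + w) = ∑ c ∈ (bx H).map (addRightEmbedding w), G c := by
    rw [sum_map]
    rfl
  obtain ⟨B, hB⟩ : ∃ B, B = bx H := ⟨_, rfl⟩
  obtain ⟨B', hB'⟩ : ∃ B', B' = B.map (addRightEmbedding w) := ⟨_, rfl⟩
  have hmem : ∀ c, c ∈ B' ↔ c - w ∈ B := by
    intro c
    rw [hB', mem_map]
    constructor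
    · rintro ⟨a, ha, rfl⟩
      simpa using ha
    · intro h
      exact ⟨c - w, h, by simp⟩
  have hcardB : B'.card = B.card := by rw [hB']; exact card_map _
  have h2 : ∑ c ∈ B', G c - ∑ c ∈ B, G c = ∑ c ∈ B' \ B, G c - ∑ c ∈ B \ B', G c := by
    rw [← sum_sdiff_sub_sum_sdiff]
  have h3 : (B \ B').card * (2 * h + 1) ≤ (d + 1) * (U * (bx H).card) := by
    have : B \ B' = (bx H).filter (fun c => c - w ∉ bx H) := by
      ext c
      rw [mem_sdiff, mem_filter, hmem, hB]
    rw [this]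
    exact bx_shift_card H U h hh w hw
  have h4 : (B' \ B).card = (B \ B').card := card_sdiff_comm hcardB
  have hn : ∀ s : Finset (Fin (d + 1) → ℤ), ‖∑ c ∈ s, G c‖ ≤ s.card := by
    intro s
    refine (norm_sum_le_of_le s (fun c _ => hG c)).trans ?_
    simp
  rw [h1, ← hB, ← hB', h2]
  have h5 := hn (B' \ B)
  have h6 := hn (B \ B')
  rw [h4] at h5
  have hpos : (0:ℝ) < 2 * (h : ℝ) + 1 := by positivity
  have h3' : ((B \ B').card : ℝ) ≤ (d + 1) * (U / (2 * (h : ℝ) + 1)) * (bx H).card := by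
    have h7 : ((B \ B').card : ℝ) * (2 * (h : ℝ) + 1) ≤ (d + 1) * (U * (bx H).card) := by exact_mod_cast h3
    have h8 : (d + 1) * (U / (2 * (h : ℝ) + 1)) * (bx H).card = ((d + 1) * (U * (bx H).card)) / (2 * (h : ℝ) + 1) := by
      ring
    rw [h8, le_div_iff₀ hpos]
    exact h7
  rw [hB] at *
  calc ‖∑ c ∈ B' \ bx H, G c - ∑ c ∈ bx H \ B', G c‖ ≤ ‖∑ c ∈ B' \ bx H, G c‖ + ‖∑ c ∈ bx H \ B', G c‖ := norm_sub_le _ _
    _ ≤ (bx H \ B').card + (bx H \ B').card := add_le_add h5 h6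
    _ ≤ (d + 1) * (U / (2 * (h : ℝ) + 1)) * (bx H).card + (d + 1) * (U / (2 * (h : ℝ) + 1)) * (bx H).card := add_le_add h3' h3'
    _ = _ := by ring

end Pool.Agent.N718.GV
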