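import Pool.Agent.N718.GU.GP4
import Pool.Agent.N718.GV.Avg

set_option autoImplicit false

/-!
The main estimate for arbitrary boxes: choice of the parameters.
-/

namespace Pool.Agent.N718.GV

open Finset Pool.Agent.N718.GU

lemma sz_cast {d : ℕ} (H : Fin (d + 1) → ℕ) (X : ℕ) : (sz H X : ℝ) = ∑ i, (H i : ℝ) * (X : ℝ) ^ (i : ℕ) := by
  unfold sz
  push_cast
  rfl

lemma sz_mono {d : ℕ} (H : Fin (d + 1) → ℕ) {x X : ℕ} (h : x ≤ X) : sz H x ≤ sz H X := by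
  unfold sz
  exact sum_le_sum fun i _ => Nat.mul_le_mul_left _ (Nat.pow_le_pow_left h _)

lemma sz_ge {d : ℕ} (H : Fin (d + 1) → ℕ) (X : ℕ) : H 0 ≤ sz H X := by
  unfold sz
  have h1 : H 0 * X ^ (((0 : Fin (d + 1)) : ℕ)) ≤ ∑ i : Fin (d + 1), H i * X ^ (i : ℕ) :=
    single_le_sum (f := fun i : Fin (d + 1) => H i * X ^ (i : ℕ)) (fun _ _ => Nat.zero_le _) (mem_univ _)
  simpa using h1

lemma KM {d κ x M X B : ℕ} (H : Fin (d + 1) → ℕ) {δ : ℝ} (hδ : 0 < δ) (hδ1 : δ ≤ 1) (hx : 1 ≤ x) (hH : 1 ≤ H 0)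
    (hX : X = κ * x) (hκ : 1 ≤ κ) (hM : M = (B + 1) * sz H X) {bc : ℝ} (hbc : 0 ≤ bc) :
    (d + 1) * 2 ^ d * bc / (∑ i, (H i * (δ * x) ^ (i : ℕ))) * (2 * M + 1) ≤
      3 * (B + 1) * (d + 1) * 2 ^ d * (κ / δ) ^ d * bc := by
  have hxr : (0:ℝ) < x := by exact_mod_cast (show 0 < x by omega)
  have hκr : (1:ℝ) ≤ κ := by exact_mod_cast hκ
  have hH0 : (0:ℝ) < H 0 := by exact_mod_cast (show 0 < H 0 by omega)
  have hM1 : (1:ℝ) ≤ M := by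
    have h1 : 1 ≤ M := by
      rw [hM]
      have := sz_ge H X
      exact Nat.one_le_iff_ne_zero.mpr (Nat.mul_ne_zero (by omega) (by omega))
    exact_mod_cast h1
  obtain ⟨W, hW⟩ : ∃ W : ℝ, W = ∑ i : Fin (d + 1), ((H i : ℝ) * (δ * x) ^ (i : ℕ)) := ⟨_, rfl⟩
  rw [← hW]
  have hW0 : 0 < W := by
    rw [hW]
    apply sum_pos' (fun i _ => by positivity)
    exact ⟨0, mem_univ _, by positivity⟩
  have h1 : (sz H X : ℝ) ≤ (κ / δ) ^ d * W := by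
    rw [sz_cast, hW, mul_sum]
    refine sum_le_sum fun i _ => ?_
    have h2 : (X : ℝ) = (κ / δ) * (δ * x) := by
      rw [hX]
      push_cast
      field_simp
    rw [h2, mul_pow]
    have h3 : (1:ℝ) ≤ κ / δ := by
      rw [le_div_iff₀ hδ]
      linarith
    have h4 : (κ / δ) ^ (i : ℕ) ≤ (κ / δ) ^ d := pow_le_pow_right₀ h3 (by omega)
    calc (H i : ℝ) * ((κ / δ) ^ (i : ℕ) * (δ * x) ^ (i : ℕ)) = (κ / δ) ^ (i : ℕ) * ((H i : ℝ) * (δ * x) ^ (i : ℕ)) := by ring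
      _ ≤ _ := mul_le_mul_of_nonneg_right h4 (by positivity)
  have hMr : (M : ℝ) = (B + 1) * sz H X := by
    rw [hM]
    push_cast
    ring
  have h5 : (2 * (M : ℝ) + 1) ≤ 3 * (B + 1) * ((κ / δ) ^ d * W) := by
    calc (2 * (M : ℝ) + 1) ≤ 3 * M := by linarith
      _ = 3 * (B + 1) * sz H X := by rw [hMr]; ring
      _ ≤ _ := mul_le_mul_of_nonneg_left h1 (by positivity)
  calc (d + 1) * 2 ^ d * bc / W * (2 * M + 1) ≤ (d + 1) * 2 ^ d * bc / W * (3 * (B + 1) * ((κ / δ) ^ d * W)) :=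
        mul_le_mul_of_nonneg_left h5 (by positivity)
    _ = _ := by
        field_simp

/-- the main estimate -/
def P_GPB : Prop := ∀ F : ℤ → ℂ, (∀ n, ‖F n‖ ≤ 1) → Unif F → ∀ m D B d : ℕ, m ≤ d → ∀ ε : ℝ, 0 < ε → ∃ x₀ : ℕ,
  ∀ x : ℕ, x₀ ≤ x → ∀ H : Fin (d + 1) → ℕ, (∀ i, x ^ (3 * (m + 1)) ≤ H i) → ∀ (p₀ : Fin (D + 1) → ℤ) (p : Fin m → Fin (D + 1) → ℤ),
    (∀ i, |p₀ i| ≤ B) → (∀ j i, |p j i| ≤ B) → (∃ i : Fin D, p₀ i.succ ≠ 0) → (∀ j, p j ≠ p₀) →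
    ∀ ρ : (Fin D → ℤ) → ℤ, (∀ v ∈ cube D x, |ρ v| ≤ B * sz H x) →
    ∀ G : (Fin D → ℤ) → Fin m → ℤ → ℂ, (∀ v j n, ‖G v j n‖ ≤ 1) →
      ∑ v ∈ cube D x, ‖∑ c ∈ bx H, F (ρ v + ev c (aff p₀ v)) * ∏ j, G v j (ev c (aff (p j) v))‖ ≤
        ε * (2 * (x : ℝ) + 1) ^ D * (bx H).card

theorem t_GPB (hI : P_INTERP) (hV : P_VQ) (hFa : P_FAREY) (hLS : P_LS) (hD : P_DIV)
    (hSm : P_SMALL) : P_GPB := by
  classical
  intro F hF hU m D B d hm ε hε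
  obtain ⟨C, hC0, hls⟩ := hLS
  obtain ⟨ε₁, hε₁⟩ : ∃ ε₁ : ℝ, ε₁ = ε / (4 * (m + 1)) := ⟨_, rfl⟩
  have hε₁0 : 0 < ε₁ := by rw [hε₁]; positivity
  obtain ⟨δ₀, hδ₀, x₁, hsm⟩ := hSm D (2 * B) ε₁ hε₁0
  obtain ⟨δ, hδd⟩ : ∃ δ : ℝ, δ = min δ₀ 1 := ⟨_, rfl⟩
  have hδ : 0 < δ := by rw [hδd]; exact lt_min hδ₀ one_pos
  have hδ1 : δ ≤ 1 := by rw [hδd]; exact min_le_right _ _
  have hδ2 : δ ≤ δ₀ := by rw [hδd]; exact min_le_left _ _
  obtain ⟨κ, hκ⟩ : ∃ κ, κ = (D + 1) * (B + 1) := ⟨_, rfl⟩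
  have hκ1 : 1 ≤ κ := by rw [hκ]; exact Nat.one_le_iff_ne_zero.mpr (by positivity)
  obtain ⟨C₁, hC₁⟩ : ∃ C₁ : ℝ, C₁ = 3 * (B + 1) * (d + 1) * 2 ^ d * (κ / δ) ^ d := ⟨_, rfl⟩
  have hκr : (0:ℝ) < κ := by exact_mod_cast (show 0 < κ by omega)
  have hC₁0 : 0 < C₁ := by rw [hC₁]; positivity
  obtain ⟨η, hη⟩ : ∃ η : ℝ, η = min 1 (ε / (16 * C₁)) := ⟨_, rfl⟩
  have hη0 : 0 < η := by
    rw [hη]
    exact lt_min one_pos (by positivity)
  have hη1 : η ≤ 1 := by rw [hη]; exact min_le_left _ _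
  have hη2 : η ≤ ε / (16 * C₁) := by rw [hη]; exact min_le_right _ _
  obtain ⟨L, hL⟩ : ∃ L : ℕ, L = ⌈8 * ((d : ℝ) + 1) / ε⌉₊ + 1 := ⟨_, rfl⟩
  have hL1 : 1 ≤ L := by omega
  have hLr : (0:ℝ) < L := by exact_mod_cast (show 0 < L by omega)
  have hL2 : ((d : ℝ) + 1) / L ≤ ε / 8 := by
    rw [div_le_div_iff₀ hLr (by norm_num)]
    have h1 : 8 * ((d : ℝ) + 1) / ε ≤ L := by
      rw [hL]
      push_cast
      have := Nat.le_ceil (8 * ((d : ℝ) + 1) / ε)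
      linarith
    rw [div_le_iff₀ hε] at h1
    linarith
  obtain ⟨ε₂, hε₂⟩ : ∃ ε₂ : ℝ, ε₂ = η * ε / (640 * C * C₁) := ⟨_, rfl⟩
  have hε₂0 : 0 < ε₂ := by rw [hε₂]; positivity
  obtain ⟨R, x₂, hdiv⟩ := hD D (2 * B) m ε₂ hε₂0
  obtain ⟨ε', hε'⟩ : ∃ ε' : ℝ, ε' = η * ε / (64 * C₁ * ((R : ℝ) + 1) ^ 2) := ⟨_, rfl⟩
  have hε'0 : 0 < ε' := by rw [hε']; positivity
  obtain ⟨Y₀, hUY⟩ := hU ε' hε'0
  obtain ⟨Z, hZ⟩ : ∃ Z : ℕ, Z = Y₀ + ⌈64 / η ^ 2⌉₊ + 1 := ⟨_, rfl⟩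
  refine ⟨max (max x₁ x₂) (L * (2 * κ) ^ (3 * m) + Z * L * (2 * κ) ^ m + κ + 1), fun x hx H hH p₀ p hp₀ hp hne hpj ρ hρ G hG => ?_⟩
  obtain ⟨h, hh⟩ : ∃ h : ℕ, h = x ^ (3 * (m + 1)) := ⟨_, rfl⟩
  rw [← hh] at hH
  have hx₁ : x₁ ≤ x := le_trans (le_trans (le_max_left _ _) (le_max_left _ _)) hx
  have hx₂ : x₂ ≤ x := le_trans (le_trans (le_max_right _ _) (le_max_left _ _)) hx
  have hx₃ : L * (2 * κ) ^ (3 * m) + Z * L * (2 * κ) ^ m + κ + 1 ≤ x := le_trans (le_max_right _ _) hx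
  have hx1 : 1 ≤ x := by omega
  obtain ⟨X, hX⟩ : ∃ X, X = κ * x := ⟨_, rfl⟩
  have hX1 : 1 ≤ X := by rw [hX]; exact Nat.one_le_iff_ne_zero.mpr (by positivity)
  have hX2 : 1 + X ≤ 2 * κ * x := by rw [mul_assoc, ← hX]; omega
  -- powers of `x`
  have hxp : ∀ c n : ℕ, c ≤ x → n + 1 ≤ 3 * (m + 1) → c * x ^ n ≤ h := by
    intro c n hc hn
    calc c * x ^ n ≤ x * x ^ n := Nat.mul_le_mul_right _ hc
      _ = x ^ (n + 1) := by ring
      _ ≤ x ^ (3 * (m + 1)) := Nat.pow_le_pow_right hx1 hn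
      _ = h := hh.symm
  obtain ⟨Y, hY⟩ : ∃ Y, Y = h / (L * (1 + X) ^ m) := ⟨_, rfl⟩
  have hden : 0 < L * (1 + X) ^ m := by positivity
  have hY1 : Y * (L * (1 + X) ^ m) ≤ h := by rw [hY]; exact Nat.div_mul_le_self _ _
  have hYZ : Z ≤ Y := by
    rw [hY, Nat.le_div_iff_mul_le hden]
    calc Z * (L * (1 + X) ^ m) ≤ Z * (L * (2 * κ * x) ^ m) := by gcongr
      _ = (Z * L * (2 * κ) ^ m) * x ^ m := by rw [mul_pow]; ring
      _ ≤ h := hxp _ _ (by omega) (by omega)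
  have hYQ : ((2 * X) ^ m) ^ 2 ≤ Y := by
    rw [hY, Nat.le_div_iff_mul_le hden]
    calc ((2 * X) ^ m) ^ 2 * (L * (1 + X) ^ m) ≤ ((2 * X) ^ m) ^ 2 * (L * (2 * κ * x) ^ m) := by gcongr
      _ = (L * (2 * κ) ^ (3 * m)) * x ^ (3 * m) := by
          rw [hX, ← mul_assoc 2 κ x, mul_pow, mul_pow, show 3 * m = m * 2 + m by ring, pow_add (2 * κ), pow_add x, pow_mul, pow_mul]
          ring
      _ ≤ h := hxp _ _ (by omega) (by omega)
  have hXH : X ≤ h := by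
    rw [hX]
    have := hxp κ 1 (by omega) (by omega)
    rwa [pow_one] at this
  have hH1 : 1 ≤ h := le_trans hX1 hXH
  have hH01 : 1 ≤ H 0 := le_trans hH1 (hH 0)
  obtain ⟨M, hM⟩ : ∃ M, M = (B + 1) * sz H X := ⟨_, rfl⟩
  have hHM : h ≤ M := by
    rw [hM]
    calc h ≤ H 0 := hH 0
      _ ≤ sz H X := sz_ge H X
      _ ≤ (B + 1) * sz H X := Nat.le_mul_of_pos_left _ (by omega)
  have hxX : x ≤ X := by rw [hX]; exact Nat.le_mul_of_pos_left _ (by omega)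
  have hρM : ∀ v ∈ cube D x, (|ρ v| : ℤ) + sz H X ≤ M := by
    intro v hv
    have h1 := hρ v hv
    have h2 : (B : ℤ) * sz H x ≤ B * sz H X := by
      apply mul_le_mul_of_nonneg_left _ (Nat.cast_nonneg B)
      exact_mod_cast sz_mono H hxX
    rw [hM]
    push_cast
    linarith
  have hYH : Y ≤ h := by rw [hY]; exact Nat.div_le_self _ _
  have hYη : 64 / η ^ 2 ≤ (Y : ℝ) := by
    have h1 : (⌈64 / η ^ 2⌉₊ : ℝ) ≤ Y := by exact_mod_cast (show ⌈64 / η ^ 2⌉₊ ≤ Y by omega)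
    exact (Nat.le_ceil _).trans h1
  have hpp : ∀ j i, |(p₀ - p j) i| ≤ ((2 * B : ℕ) : ℤ) := by
    intro j i
    rw [Pi.sub_apply]
    have h1 := abs_sub (p₀ i) (p j i)
    have h2 := hp₀ i
    have h3 := hp j i
    push_cast
    linarith
  have havg := avg hI hV hFa hF (D := D) (B := B) (x := x) (X := X) (h := h) (M := M) (Y := Y) (L := L)
    (Q := (2 * X) ^ m) (R := R) H hH hm hx1 (by rw [hX, hκ]) hXH hHM ρ hρM hL1 hY1 rfl hYQ hη0 hη1 hYη hδ hC0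
    (fun z => hls F hF Y _ z) hε'0.le hε₁0.le hε₂0.le (fun α => hUY Y (by omega) M (by omega) α) p₀ p hp₀ hp
    (by
      refine le_trans ?_ (hsm x hx₁ p₀ (fun i => (hp₀ i).trans (by push_cast; linarith [(Nat.cast_nonneg B : (0:ℤ) ≤ B)])) hne)
      have : (cube D x).filter (fun v => |(aff p₀ v : ℝ)| ≤ δ * x) ⊆
          (cube D x).filter (fun v => |(aff p₀ v : ℝ)| ≤ δ₀ * x) := by
        intro v hv
        rw [mem_filter] at hv ⊢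
        refine ⟨hv.1, hv.2.trans ?_⟩
        gcongr
      exact_mod_cast card_le_card this)
    (by
      intro j
      by_cases h : ∃ i : Fin D, (p₀ - p j) i.succ ≠ 0
      · refine le_trans ?_ (hsm x hx₁ (p₀ - p j) (hpp j) h)
        have : (cube D x).filter (fun v => aff (p₀ - p j) v = 0) ⊆
            (cube D x).filter (fun v => |(aff (p₀ - p j) v : ℝ)| ≤ δ₀ * x) := by
          intro v hv
          rw [mem_filter] at hv ⊢
          refine ⟨hv.1, ?_⟩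
          rw [hv.2]
          simp only [Int.cast_zero, abs_zero]
          positivity
        exact_mod_cast card_le_card this
      · push Not at h
        have h1 : (cube D x).filter (fun v => aff (p₀ - p j) v = 0) = ∅ := by
          apply filter_eq_empty_iff.mpr
          intro v _ h2
          unfold aff at h2
          rw [sum_eq_zero (fun i _ => by rw [h i, zero_mul]), add_zero] at h2
          apply hpj j
          funext i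
          have h3 : (p₀ - p j) i = 0 := by
            refine Fin.cases h2 (fun i => h i) i
          rw [Pi.sub_apply] at h3
          omega
        rw [h1, card_empty, Nat.cast_zero]
        positivity)
    (fun r hr => hdiv x hx₂ (fun j => p₀ - p j) (fun j => sub_ne_zero.mpr (hpj j).symm) hpp r hr) G hG
  refine havg.trans ?_
  exact GP_final hε hη0 hC0 hC₁0 (by positivity) (by positivity) (by positivity) (by omega) hε₁ hL2 hη2 hε₂ hε'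
    (by rw [hC₁]; exact KM H hδ hδ1 hx1 hH01 hX hκ1 hM (Nat.cast_nonneg _))

end Pool.Agent.N718.GV
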