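import Pool.Agent.N718.GU.Fin
import Pool.Agent.N718.GV.Par

set_option autoImplicit false

/-!
Assembly: small Gowers norms for almost all polynomials, arbitrary boxes.
-/

namespace Pool.Agent.N718.GV

open Finset Pool.Agent.N718.GU

/-- the product `w(n) F₀(R(a₀ n + b₀) + f(a₀ n + b₀)) ∏ F_i(n, f(a_i n + b_i))` -/
noncomputable def gfunB {d k : ℕ} (F₀ : ℤ → ℝ) (R : ℤ → ℤ) (w : ℤ → ℝ) (F : Fin k → ℤ → ℤ → ℝ) (a b : Fin (k + 1) → ℤ)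
    (c : Fin (d + 1) → ℤ) (n : ℤ) : ℝ :=
  w n * F₀ (R (a 0 * n + b 0) + ev c (a 0 * n + b 0)) * ∏ i : Fin k, F i n (ev c (a i.succ * n + b i.succ))

/-- the mean value of the Gowers norm over the box -/
lemma FB_mean (hGP : P_GPB) {F₀ : ℤ → ℝ} (hF₀ : ∀ n, |F₀ n| ≤ 1) (hU : Unif (fun m => (F₀ m : ℂ))) (k s B d : ℕ)
    (hd : (k + 1) * 2 ^ s ≤ d + 1) (ε : ℝ) (hε : 0 < ε) : ∃ x₀ : ℕ, ∀ x : ℕ, x₀ ≤ x → ∀ H : Fin (d + 1) → ℕ,
    (∀ i, x ^ (3 * ((k + 1) * 2 ^ s)) ≤ H i) → ∀ (R : ℤ → ℤ) (w : ℤ → ℝ) (F : Fin k → ℤ → ℤ → ℝ),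
    (∀ y, |y| ≤ B * ((x : ℤ) + 1) → |R y| ≤ B * sz H x) → (∀ n, |w n| ≤ 1) → (∀ i n y, |F i n y| ≤ 1) →
    ∀ a b : Fin (k + 1) → ℤ, (∀ i, a i ≠ 0) → (∀ i, |a i| ≤ B) → (∀ i, |b i| ≤ B) →
      (∀ i : Fin k, (a i.succ, b i.succ) ≠ (a 0, b 0)) →
      ∑ c ∈ bx H, gowers s x (gfunB F₀ R w F a b c) ≤ ε * (2 * (x : ℝ) + 1) ^ (s + 1) * (bx H).card := by
  classical
  obtain ⟨m, hm⟩ : ∃ m, m + 1 = (k + 1) * 2 ^ s := ⟨(k + 1) * 2 ^ s - 1, by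
    have : 1 ≤ (k + 1) * 2 ^ s := Nat.one_le_iff_ne_zero.mpr (by positivity)
    omega⟩
  obtain ⟨x₀, h0⟩ := hGP (fun m => (F₀ m : ℂ)) (fun n => by rw [Complex.norm_real]; exact hF₀ n) hU m (s + 1) B d (by omega) ε hε
  refine ⟨x₀, fun x hx H hH R w F hR hw hF a b ha haB hbB hab => ?_⟩
  -- the points
  obtain ⟨ee⟩ : Nonempty (Fin m ≃ {y : Fin (k + 1) × Finset (Fin s) // y ≠ (0, ∅)}) := by
    refine ⟨(Fintype.equivFinOfCardEq ?_).symm⟩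
    have h1 : Fintype.card {y : Fin (k + 1) × Finset (Fin s) // y ≠ (0, ∅)} = Fintype.card (Fin (k + 1) × Finset (Fin s)) - 1 := by
      rw [Fintype.card_subtype_compl]
      simp
    rw [h1, Fintype.card_prod, Fintype.card_fin, Fintype.card_finset, Fintype.card_fin]
    omega
  obtain ⟨T, hT⟩ : ∃ T : Fin (k + 1) → ℤ → ℤ → ℝ, ∀ i, T i = Fin.cons (α := fun _ => ℤ → ℤ → ℝ)
    (fun n y => F₀ (R (a 0 * n + b 0) + y)) F i := ⟨_, fun _ => rfl⟩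
  have hT1 : ∀ i n y, |T i n y| ≤ 1 := by
    intro i n y
    rw [hT]
    refine Fin.cases ?_ (fun j => ?_) i
    · rw [Fin.cons_zero]; exact hF₀ _
    · rw [Fin.cons_succ]; exact hF j n y
  have hg : ∀ (c : Fin (d + 1) → ℤ) (n : ℤ), gfunB F₀ R w F a b c n = w n * ∏ i : Fin (k + 1), T i n (ev c (a i * n + b i)) := by
    intro c n
    unfold gfunB
    rw [Fin.prod_univ_succ]
    simp only [hT, Fin.cons_zero, Fin.cons_succ]
    ring
  obtain ⟨p, hp⟩ : ∃ p : Fin m → Fin (s + 1 + 1) → ℤ, ∀ j, p j = FA_form (a (ee j).1.1) (b (ee j).1.1) (ee j).1.2 := ⟨_, fun _ => rfl⟩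
  obtain ⟨G, hG⟩ : ∃ G : (Fin (s + 1) → ℤ) → Fin m → ℤ → ℂ, ∀ v j y, G v j y =
    (T (ee j).1.1 (pt (v 0) (fun l => v l.succ) (ee j).1.2) y : ℂ) := ⟨_, fun _ _ _ => rfl⟩
  obtain ⟨ρ, hρ⟩ : ∃ ρ : (Fin (s + 1) → ℤ) → ℤ, ∀ v, ρ v = R (aff (FA_form (a 0) (b 0) (∅ : Finset (Fin s))) v) := ⟨_, fun _ => rfl⟩
  have hρB : ∀ v ∈ cube (s + 1) x, |ρ v| ≤ B * sz H x := by
    intro v hv
    rw [hρ]
    apply hR
    rw [FA_aff]
    unfold pt
    rw [sum_empty, add_zero]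
    unfold cube at hv
    rw [Fintype.mem_piFinset] at hv
    have h1 := hv 0
    rw [mem_Icc, ← abs_le] at h1
    refine (abs_add_le _ _).trans ?_
    rw [abs_mul]
    have h2 : |a 0| * |v 0| ≤ B * x := mul_le_mul (haB 0) h1 (abs_nonneg _) (by positivity)
    have h3 := hbB 0
    linarith
  have key := h0 x hx H (by rw [hm]; exact hH) (FA_form (a 0) (b 0) ∅) p (FA_abs (haB 0) (hbB 0) ∅)
    (fun j i => by rw [hp]; exact FA_abs (haB _) (hbB _) _ i)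
    ⟨0, by
      unfold FA_form
      rw [Fin.cons_succ, Fin.cons_zero]
      exact ha 0⟩
    (fun j => by
      rw [hp]
      apply FA_ne (ha _)
      have h1 := (ee j).2
      by_cases hω : (ee j).1.2 = ∅
      · right
        have h2 : (ee j).1.1 ≠ 0 := by
          intro h3
          exact h1 (Prod.ext h3 hω)
        obtain ⟨i, hi⟩ := Fin.exists_succ_eq.mpr h2
        rw [← hi]
        exact hab i
      · exact Or.inl hω)
    ρ hρB G (fun v j n => by rw [hG, Complex.norm_real]; exact hT1 _ _ _)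
  refine le_trans ?_ key
  -- the weights and the cut-offs
  obtain ⟨u, hu⟩ : ∃ u : (Fin (s + 1) → ℤ) → ℝ, ∀ v, u v = ∏ ω : Finset (Fin s),
      if 1 ≤ pt (v 0) (fun l => v l.succ) ω ∧ pt (v 0) (fun l => v l.succ) ω ≤ x then w (pt (v 0) (fun l => v l.succ) ω) else 0 :=
    ⟨_, fun _ => rfl⟩
  have hu1 : ∀ v, |u v| ≤ 1 := by
    intro v
    rw [hu, abs_prod]
    refine prod_le_one (fun _ _ => abs_nonneg _) fun ω _ => ?_
    split_ifs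
    · exact hw _
    · simp
  have hterm : ∀ (c : Fin (d + 1) → ℤ) (v : Fin (s + 1) → ℤ),
      (∏ ω : Finset (Fin s), if 1 ≤ pt (v 0) (fun l => v l.succ) ω ∧ pt (v 0) (fun l => v l.succ) ω ≤ x then
        gfunB F₀ R w F a b c (pt (v 0) (fun l => v l.succ) ω) else 0) =
      u v * (F₀ (ρ v + ev c (aff (FA_form (a 0) (b 0) ∅) v)) *
        ∏ j, T (ee j).1.1 (pt (v 0) (fun l => v l.succ) (ee j).1.2) (ev c (aff (p j) v))) := by
    intro c v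
    have e1 : ∀ ω : Finset (Fin s), (if 1 ≤ pt (v 0) (fun l => v l.succ) ω ∧ pt (v 0) (fun l => v l.succ) ω ≤ x then
        gfunB F₀ R w F a b c (pt (v 0) (fun l => v l.succ) ω) else 0) =
        (if 1 ≤ pt (v 0) (fun l => v l.succ) ω ∧ pt (v 0) (fun l => v l.succ) ω ≤ x then w (pt (v 0) (fun l => v l.succ) ω) else 0) *
        ∏ i : Fin (k + 1), T i (pt (v 0) (fun l => v l.succ) ω) (ev c (aff (FA_form (a i) (b i) ω) v)) := by
      intro ω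
      split_ifs
      · rw [hg]
        congr 1
        exact prod_congr rfl fun i _ => by rw [FA_aff]
      · rw [zero_mul]
    rw [prod_congr rfl fun ω _ => e1 ω, prod_mul_distrib, ← hu]
    congr 1
    obtain ⟨TT, hTT⟩ : ∃ TT : Fin (k + 1) × Finset (Fin s) → ℝ, ∀ y, TT y =
        T y.1 (pt (v 0) (fun l => v l.succ) y.2) (ev c (aff (FA_form (a y.1) (b y.1) y.2) v)) :=
      ⟨_, fun _ => rfl⟩
    have e2 : ∏ ω : Finset (Fin s), ∏ i : Fin (k + 1), T i (pt (v 0) (fun l => v l.succ) ω) (ev c (aff (FA_form (a i) (b i) ω) v)) =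
        ∏ y, TT y := by
      rw [Fintype.prod_prod_type_right]
      exact prod_congr rfl fun ω _ => prod_congr rfl fun i _ => (hTT (i, ω)).symm
    have e3 : ∏ y, TT y = TT (0, ∅) * ∏ y : {y : Fin (k + 1) × Finset (Fin s) // y ≠ (0, ∅)}, TT y.1 := by
      rw [← Fintype.prod_subtype_mul_prod_subtype (fun y => y = ((0, ∅) : Fin (k + 1) × Finset (Fin s))) TT]
      congr 1
      rw [← prod_subtype {((0, ∅) : Fin (k + 1) × Finset (Fin s))} (fun y => by simp)]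
      simp
    have e4 : ∏ y : {y : Fin (k + 1) × Finset (Fin s) // y ≠ (0, ∅)}, TT y.1 = ∏ j, TT (ee j).1 :=
      (Equiv.prod_comp ee (fun y => TT y.1)).symm
    rw [e2, e3, e4, hTT]
    have e5 : ∀ y, T 0 (pt (v 0) (fun l => v l.succ) ∅) y = F₀ (ρ v + y) := by
      intro y
      rw [hT, Fin.cons_zero, hρ, FA_aff]
    rw [e5]
    congr 1
    refine prod_congr rfl fun j _ => ?_
    rw [hTT, hp]
  have hsum : ∀ v : Fin (s + 1) → ℤ, ∑ c ∈ bx H, (∏ ω : Finset (Fin s),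
      if 1 ≤ pt (v 0) (fun l => v l.succ) ω ∧ pt (v 0) (fun l => v l.succ) ω ≤ x then
        gfunB F₀ R w F a b c (pt (v 0) (fun l => v l.succ) ω) else 0) ≤
      ‖∑ c ∈ bx H, (F₀ (ρ v + ev c (aff (FA_form (a 0) (b 0) ∅) v)) : ℂ) * ∏ j, G v j (ev c (aff (p j) v))‖ := by
    intro v
    have e1 : ∑ c ∈ bx H, (F₀ (ρ v + ev c (aff (FA_form (a 0) (b 0) ∅) v)) : ℂ) * ∏ j, G v j (ev c (aff (p j) v)) =
        ((∑ c ∈ bx H, F₀ (ρ v + ev c (aff (FA_form (a 0) (b 0) ∅) v)) *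
          ∏ j, T (ee j).1.1 (pt (v 0) (fun l => v l.succ) (ee j).1.2) (ev c (aff (p j) v)) : ℝ) : ℂ) := by
      push_cast
      refine sum_congr rfl fun c _ => ?_
      congr 1
      exact prod_congr rfl fun j _ => hG _ _ _
    rw [e1, Complex.norm_real, Real.norm_eq_abs, sum_congr rfl fun c _ => hterm c v, ← mul_sum]
    refine (le_abs_self _).trans ?_
    rw [abs_mul]
    exact mul_le_of_le_one_left (abs_nonneg _) (hu1 v)
  -- the sum over the cube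
  unfold gowers
  have hcast : ∀ h : Fin s → ℤ, ∀ n : ℤ, (fun l => (Fin.cons (α := fun _ => ℤ) n h : Fin (s + 1) → ℤ) l.succ) = h := by
    intro h n
    funext l
    rw [Fin.cons_succ]
  obtain ⟨NN, hNN⟩ : ∃ NN : (Fin (s + 1) → ℤ) → ℝ, ∀ v, NN v = ‖∑ c ∈ bx H, (F₀ (ρ v + ev c (aff (FA_form (a 0) (b 0) ∅) v)) : ℂ) *
      ∏ j, G v j (ev c (aff (p j) v))‖ := ⟨_, fun _ => rfl⟩
  have hNN0 : ∀ v, 0 ≤ NN v := fun v => by rw [hNN]; exact norm_nonneg _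
  have hstep1 : ∀ h ∈ Fintype.piFinset (fun _ : Fin s => Icc (-(x : ℤ)) x), ∀ n ∈ Icc (1 : ℤ) x,
      ∑ c ∈ bx H, (∏ ω : Finset (Fin s), if 1 ≤ pt n h ω ∧ pt n h ω ≤ x then gfunB F₀ R w F a b c (pt n h ω) else 0) ≤
      NN (Fin.cons (α := fun _ => ℤ) n h) := by
    intro h _ n _
    have h1 := hsum (Fin.cons (α := fun _ => ℤ) n h)
    rw [← hNN] at h1
    refine le_trans (le_of_eq ?_) h1
    refine sum_congr rfl fun c _ => prod_congr rfl fun ω _ => ?_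
    rw [hcast, Fin.cons_zero]
  have hstep2 : ∑ c ∈ bx H, ∑ h ∈ Fintype.piFinset (fun _ : Fin s => Icc (-(x : ℤ)) x), ∑ n ∈ Icc (1 : ℤ) x,
      (∏ ω : Finset (Fin s), if 1 ≤ pt n h ω ∧ pt n h ω ≤ x then gfunB F₀ R w F a b c (pt n h ω) else 0) =
      ∑ h ∈ Fintype.piFinset (fun _ : Fin s => Icc (-(x : ℤ)) x), ∑ n ∈ Icc (1 : ℤ) x, ∑ c ∈ bx H,
      (∏ ω : Finset (Fin s), if 1 ≤ pt n h ω ∧ pt n h ω ≤ x then gfunB F₀ R w F a b c (pt n h ω) else 0) := by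
    rw [sum_comm]
    exact sum_congr rfl fun h _ => sum_comm
  have hstep3 : ∑ h ∈ Fintype.piFinset (fun _ : Fin s => Icc (-(x : ℤ)) x), ∑ n ∈ Icc (1 : ℤ) x,
      NN (Fin.cons (α := fun _ => ℤ) n h) ≤ ∑ v ∈ cube (s + 1) x, NN v := by
    rw [← sum_product' (f := fun h n => NN (Fin.cons (α := fun _ => ℤ) n h))]
    have hinj : Set.InjOn (fun y : (Fin s → ℤ) × ℤ => (Fin.cons (α := fun _ => ℤ) y.2 y.1 : Fin (s + 1) → ℤ))
        (Fintype.piFinset (fun _ : Fin s => Icc (-(x : ℤ)) x) ×ˢ Icc (1 : ℤ) x : Finset ((Fin s → ℤ) × ℤ)) := by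
      rintro ⟨h, n⟩ _ ⟨h', n'⟩ _ he
      have h1 := Fin.cons_injective2 he
      exact Prod.ext h1.2 h1.1
    rw [← sum_image (f := NN) (g := fun y : (Fin s → ℤ) × ℤ => (Fin.cons (α := fun _ => ℤ) y.2 y.1 : Fin (s + 1) → ℤ)) hinj]
    apply sum_le_sum_of_subset_of_nonneg
    · intro v hv
      rw [mem_image] at hv
      obtain ⟨⟨h, n⟩, hy, rfl⟩ := hv
      rw [mem_product, Fintype.mem_piFinset, mem_Icc] at hy
      unfold cube
      rw [Fintype.mem_piFinset]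
      intro l
      refine Fin.cases ?_ (fun l => ?_) l
      · rw [Fin.cons_zero, mem_Icc]
        have := hy.2
        simp only at this
        omega
      · rw [Fin.cons_succ]
        exact hy.1 l
    · intro v _ _
      exact hNN0 v
  have hstep4 : ∑ v ∈ cube (s + 1) x, NN v = ∑ v ∈ cube (s + 1) x, ‖∑ c ∈ bx H,
      (F₀ (ρ v + ev c (aff (FA_form (a 0) (b 0) ∅) v)) : ℂ) * ∏ j, G v j (ev c (aff (p j) v))‖ := sum_congr rfl fun v _ => hNN v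
  rw [← hstep4]
  calc _ = _ := hstep2
    _ ≤ ∑ h ∈ Fintype.piFinset (fun _ : Fin s => Icc (-(x : ℤ)) x), ∑ n ∈ Icc (1 : ℤ) x,
        NN (Fin.cons (α := fun _ => ℤ) n h) := sum_le_sum fun h hh => sum_le_sum fun n hn => hstep1 h hh n hn
    _ ≤ _ := hstep3

open Classical in
/-- **small Gowers norms for almost all polynomials** -/
theorem FB_main (hGP : P_GPB) (hNN : P_NONNEG) {F₀ : ℤ → ℝ} (hF₀ : ∀ n, |F₀ n| ≤ 1) (hU : Unif (fun m => (F₀ m : ℂ)))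
    (k s B d : ℕ) (hs : 1 ≤ s) (hd : (k + 1) * 2 ^ s ≤ d + 1) (ε : ℝ) (hε : 0 < ε) : ∃ x₀ : ℕ, ∀ x : ℕ, x₀ ≤ x →
    ∀ H : Fin (d + 1) → ℕ, (∀ i, x ^ (3 * ((k + 1) * 2 ^ s)) ≤ H i) → ∀ (R : ℤ → ℤ) (w : ℤ → ℝ) (F : Fin k → ℤ → ℤ → ℝ),
    (∀ y, |y| ≤ B * ((x : ℤ) + 1) → |R y| ≤ B * sz H x) → (∀ n, |w n| ≤ 1) → (∀ i n y, |F i n y| ≤ 1) →
    ∀ a b : Fin (k + 1) → ℤ, (∀ i, a i ≠ 0) → (∀ i, |a i| ≤ B) → (∀ i, |b i| ≤ B) →
      (∀ i : Fin k, (a i.succ, b i.succ) ≠ (a 0, b 0)) →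
    (((bx H).filter (fun c => ε * (x : ℝ) ^ (s + 1) < gowers s x (gfunB F₀ R w F a b c))).card : ℝ) ≤ ε * (bx H).card := by
  obtain ⟨ε₁, hε₁⟩ : ∃ ε₁ : ℝ, ε₁ = ε ^ 2 / 3 ^ (s + 1) := ⟨_, rfl⟩
  have hε₁0 : 0 < ε₁ := by rw [hε₁]; positivity
  obtain ⟨x₀, h0⟩ := FB_mean hGP hF₀ hU k s B d hd ε₁ hε₁0
  refine ⟨x₀ + 1, fun x hx H hH R w F hR hw hF a b ha haB hbB hab => ?_⟩
  have hx1 : (1:ℝ) ≤ x := by exact_mod_cast (show 1 ≤ x by omega)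
  have h2 := h0 x (by omega) H hH R w F hR hw hF a b ha haB hbB hab
  obtain ⟨Bd, hBd⟩ : ∃ Bd, Bd = (bx H).filter (fun c => ε * (x : ℝ) ^ (s + 1) < gowers s x (gfunB F₀ R w F a b c)) :=
    ⟨_, rfl⟩
  rw [← hBd]
  have h3 : (Bd.card : ℝ) * (ε * (x : ℝ) ^ (s + 1)) ≤ ∑ c ∈ bx H, gowers s x (gfunB F₀ R w F a b c) := by
    calc (Bd.card : ℝ) * (ε * (x : ℝ) ^ (s + 1)) = ∑ _c ∈ Bd, ε * (x : ℝ) ^ (s + 1) := by rw [sum_const, nsmul_eq_mul]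
      _ ≤ ∑ c ∈ Bd, gowers s x (gfunB F₀ R w F a b c) := by
          refine sum_le_sum fun c hc => ?_
          rw [hBd, mem_filter] at hc
          exact hc.2.le
      _ ≤ _ := by
          apply sum_le_sum_of_subset_of_nonneg
          · rw [hBd]; exact filter_subset _ _
          · intro c _ _
            exact hNN s x hs _
  have h4 : (2 * (x : ℝ) + 1) ^ (s + 1) ≤ 3 ^ (s + 1) * (x : ℝ) ^ (s + 1) := by
    rw [← mul_pow]
    gcongr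
    linarith
  have h5 : (Bd.card : ℝ) * (ε * (x : ℝ) ^ (s + 1)) ≤ (ε * (bx H).card) * (ε * (x : ℝ) ^ (s + 1)) := by
    refine (h3.trans h2).trans ?_
    have h6 : ε₁ * (3 ^ (s + 1) * (x : ℝ) ^ (s + 1)) * (bx H).card = (ε * (bx H).card) * (ε * (x : ℝ) ^ (s + 1)) := by
      rw [hε₁]
      field_simp
    rw [← h6]
    gcongr
  exact le_of_mul_le_mul_right h5 (by positivity)

end Pool.Agent.N718.GV
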